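import Pool.Agent.Work.MP_b51559_nt.TP.LAT.Stmts

set_option autoImplicit false

/-!
# Block TP, part LAT: assembly
-/

namespace MPb51559.TP

open Finset Filter Topology MeasureTheory
open MPb51559.BG
open scoped Classical

theorem Pl_Ok {T : ℝ} (h1 : 1 < T) (h2 : T < 2) : (Pl T).Ok := by
  refine ⟨h1, h2, rfl, ?_, ?_, ?_, ?_⟩
  · intro l hl
    exact absurd hl (by simp [Pl])
  · change (0 : ℝ) ≤ T - 1
    linarith
  · intro l hl
    exact absurd hl (by simp [Pl])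
  · intro l hl
    exact absurd hl (by simp [Pl])

theorem prf_LAT (hT : C_Tst) (hI : C_Int) (hJ : C_JmL) (hS : C_Sh) : St_LAT := by
  intro m k N0 Jm c h hk hh hN1 hN2 hnum
  have hN0 : 0 < N0 := by omega
  have hN0' : (0 : ℝ) < N0 := by exact_mod_cast hN0
  refine ⟨Pl (((Jm : ℝ) + k) / N0), Fl k N0 c h, ?_, hT k N0 Jm c h hN0 hh, ?_⟩
  · apply Pl_Ok
    · rw [lt_div_iff₀ hN0', one_mul]
      exact_mod_cast hN1
    · rw [div_lt_iff₀ hN0']
      have : Jm + k < 2 * N0 := by omega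
      exact_mod_cast this
  · unfold CritM
    rw [hI k N0 Jm c h hN0 hh]
    have e1 : ∑ n ∈ range (Jm + 1), (bco c k n : ℝ) * (h n : ℝ) ^ 2 =
        ((∑ n ∈ range (Jm + 1), bco c (k - 1) n * Qn Jm c h n : ℕ) : ℝ) := by
      rw [← hS k Jm c h (by omega)]
      push_cast
      rfl
    rw [e1]
    have e2 : ∀ i : Fin k, (1 / (N0 : ℝ)) ^ (k + 1) *
        ((∑ n ∈ range (2 * N0 - 2 * k + 2 - Jm), bco c (k - 1) n * Hn Jm c h n ^ 2 : ℕ) : ℝ) ≤
        BG.Jm (Pl (((Jm : ℝ) + k) / N0)) (Fl k N0 c h) i := by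
      intro i
      have := hJ k N0 Jm c h hk hh hN1 hN2 i
      push_cast
      exact this
    refine lt_of_lt_of_le ?_ (Finset.sum_le_sum fun i _ => e2 i)
    rw [Finset.sum_const, Finset.card_univ, Fintype.card_fin, nsmul_eq_mul]
    set S : ℕ := ∑ n ∈ range (Jm + 1), bco c (k - 1) n * Qn Jm c h n with hSdef
    set R : ℕ := ∑ n ∈ range (2 * N0 - 2 * k + 2 - Jm), bco c (k - 1) n * Hn Jm c h n ^ 2 with hR
    have hnum' : 4 * m * N0 * S < k * R := hnum
    have h3 : (4 : ℝ) * m * N0 * S < k * R := by exact_mod_cast hnum'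
    have h4 : (0 : ℝ) < (1 / (N0 : ℝ)) ^ (k + 1) := by positivity
    have h5 := mul_lt_mul_of_pos_left h3 h4
    have h6 : (1 / (N0 : ℝ)) ^ (k + 1) * (4 * (m : ℝ) * N0 * S) =
        4 * (m : ℝ) * ((1 / (N0 : ℝ)) ^ k * S) := by
      rw [pow_succ]
      field_simp
    rw [h6] at h5
    refine lt_of_lt_of_eq h5 ?_
    ring

end MPb51559.TP
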