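import Pool.Agent.Work.MP_b51559_nt.TP.LAT.Stmts

set_option autoImplicit false

/-!
# Block TP, part LAT, item Box: the integral of the indicator of a box
-/

namespace MPb51559.TP

open Finset Filter Topology MeasureTheory
open MPb51559.BG
open scoped Classical

theorem Box_eq {k : ℕ} (lo hi : Fin k → ℝ) :
    bx lo hi = (Set.pi Set.univ fun i => Set.Ico (lo i) (hi i)).indicator fun _ => (1 : ℝ) := by
  funext t
  unfold bx
  rw [Set.indicator_apply]
  have h : (t ∈ Set.pi Set.univ fun i => Set.Ico (lo i) (hi i)) ↔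
      ∀ i, lo i ≤ t i ∧ t i < hi i := by
    simp only [Set.mem_pi, Set.mem_univ, Set.mem_Ico, true_implies]
  by_cases h1 : ∀ i, lo i ≤ t i ∧ t i < hi i
  · rw [if_pos h1, if_pos (h.2 h1)]
  · rw [if_neg h1, if_neg fun h2 => h1 (h.1 h2)]

theorem prf_Box : C_Box := by
  intro k lo hi hle
  have hm : MeasurableSet (Set.pi Set.univ fun i => Set.Ico (lo i) (hi i)) :=
    MeasurableSet.univ_pi fun i => measurableSet_Ico
  have hv : volume.real (Set.pi Set.univ fun i => Set.Ico (lo i) (hi i)) =
      ∏ i, (hi i - lo i) := by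
    rw [Measure.real, Real.volume_pi_Ico_toReal]
    exact hle
  have hv' : volume (Set.pi Set.univ fun i => Set.Ico (lo i) (hi i)) ≠ ⊤ := by
    rw [Real.volume_pi_Ico]
    exact ENNReal.prod_ne_top fun i _ => ENNReal.ofReal_ne_top
  rw [Box_eq]
  refine ⟨measurable_const.indicator hm, ?_, ?_⟩
  · rw [integrable_indicator_iff hm]
    exact integrableOn_const hv'
  · rw [integral_indicator_const _ hm, hv, smul_eq_mul, mul_one]

end MPb51559.TP
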