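import Pool.Agent.Work.MP_b51559_nt.TP.LAT.Stmts

set_option autoImplicit false

/-!
# Block TP, part LAT, item Bv: the variation of a step function on the lattice
-/

namespace MPb51559.TP

open Finset Filter Topology MeasureTheory
open MPb51559.BG
open scoped Classical

theorem Bv_add (f g : ℝ → ℝ) : eVariationOn (fun s => f s + g s) Set.univ ≤
    eVariationOn f Set.univ + eVariationOn g Set.univ := by
  refine iSup_le ?_
  rintro ⟨n, u, hu, hus⟩
  show ∑ i ∈ range n, edist (f (u (i + 1)) + g (u (i + 1))) (f (u i) + g (u i)) ≤ _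
  calc ∑ i ∈ range n, edist (f (u (i + 1)) + g (u (i + 1))) (f (u i) + g (u i))
      ≤ ∑ i ∈ range n, (edist (f (u (i + 1))) (f (u i)) + edist (g (u (i + 1))) (g (u i))) :=
        Finset.sum_le_sum fun i _ => edist_add_add_le _ _ _ _
    _ = ∑ i ∈ range n, edist (f (u (i + 1))) (f (u i)) +
        ∑ i ∈ range n, edist (g (u (i + 1))) (g (u i)) := Finset.sum_add_distrib
    _ ≤ _ := add_le_add (eVariationOn.sum_le hu hus) (eVariationOn.sum_le hu hus)

theorem Bv_step (a v : ℝ) :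
    eVariationOn (fun s : ℝ => if a ≤ s then v else 0) Set.univ ≤ ENNReal.ofReal |v| := by
  have hmono : MonotoneOn (fun s : ℝ => if a ≤ s then (1 : ℝ) else 0) Set.univ := by
    intro x _ y _ hxy
    show (if a ≤ x then (1 : ℝ) else 0) ≤ if a ≤ y then (1 : ℝ) else 0
    by_cases hx : a ≤ x
    · rw [if_pos hx, if_pos (hx.trans hxy)]
    · rw [if_neg hx]
      split_ifs
      · exact zero_le_one
      · exact le_rfl
  have hmaps : Set.MapsTo (fun s : ℝ => if a ≤ s then (1 : ℝ) else 0) Set.univ (Set.Icc 0 1) := by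
    intro x _
    show (if a ≤ x then (1 : ℝ) else 0) ∈ Set.Icc (0 : ℝ) 1
    split_ifs
    · exact ⟨zero_le_one, le_rfl⟩
    · exact ⟨le_rfl, zero_le_one⟩
  have h1 : eVariationOn (fun s : ℝ => if a ≤ s then (1 : ℝ) else 0) Set.univ ≤ 1 := by
    have h2 := eVariationOn.comp_le_of_monotoneOn (fun x : ℝ => x)
      (fun s : ℝ => if a ≤ s then (1 : ℝ) else 0) hmono hmaps
    refine h2.trans ?_
    have h3 : MonotoneOn (fun x : ℝ => x) (Set.Icc 0 1) := fun x _ y _ hxy => hxy
    have h4 := h3.eVariationOn_eq (a := 0) (b := 1) ⟨le_rfl, zero_le_one⟩ ⟨zero_le_one, le_rfl⟩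
    rw [Set.inter_self] at h4
    refine h4.le.trans ?_
    simp
  have hlip : LipschitzOnWith (Real.nnabs v) (fun x : ℝ => v * x) (Set.univ : Set ℝ) := by
    refine LipschitzOnWith.of_dist_le_mul fun x _ y _ => ?_
    rw [Real.dist_eq, Real.dist_eq, ← mul_sub, abs_mul, Real.coe_nnabs]
  have h5 := hlip.comp_eVariationOn_le (g := fun s : ℝ => if a ≤ s then (1 : ℝ) else 0)
    (s := Set.univ) (Set.mapsTo_univ _ _)
  have h6 : (fun x : ℝ => v * x) ∘ (fun s : ℝ => if a ≤ s then (1 : ℝ) else 0) =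
      fun s : ℝ => if a ≤ s then v else 0 := by
    funext s
    show v * (if a ≤ s then (1 : ℝ) else 0) = if a ≤ s then v else 0
    split_ifs <;> simp
  rw [h6] at h5
  refine h5.trans ?_
  calc ((Real.nnabs v : NNReal) : ENNReal) *
        eVariationOn (fun s : ℝ => if a ≤ s then (1 : ℝ) else 0) Set.univ
      ≤ ((Real.nnabs v : NNReal) : ENNReal) * 1 := mul_le_mul_right h1 _
    _ = ENNReal.ofReal |v| := by
      rw [mul_one, ENNReal.ofReal]
      congr 1
      apply NNReal.eq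
      rw [Real.coe_nnabs, Real.coe_toNNReal _ (abs_nonneg v)]

theorem Bv_box (a b v : ℝ) (hab : a ≤ b) :
    eVariationOn (fun s : ℝ => if a ≤ s ∧ s < b then v else 0) Set.univ ≤
      ENNReal.ofReal (2 * |v|) := by
  have h1 : (fun s : ℝ => if a ≤ s ∧ s < b then v else 0) =
      fun s => (if a ≤ s then v else 0) + (if b ≤ s then -v else 0) := by
    funext s
    by_cases h1 : a ≤ s
    · by_cases h2 : b ≤ s
      · rw [if_neg (fun h => absurd h.2 (not_lt.2 h2)), if_pos h1, if_pos h2, add_neg_cancel]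
      · rw [if_pos ⟨h1, not_le.1 h2⟩, if_pos h1, if_neg h2, add_zero]
    · have h2 : ¬ b ≤ s := fun h => h1 (hab.trans h)
      rw [if_neg (fun h => h1 h.1), if_neg h1, if_neg h2, add_zero]
  rw [h1]
  refine (Bv_add _ _).trans ((add_le_add (Bv_step a v) (Bv_step b (-v))).trans ?_)
  rw [abs_neg, ← ENNReal.ofReal_add (abs_nonneg v) (abs_nonneg v), ← two_mul]

theorem Bv_sum (N : ℕ) (g : ℕ → ℝ → ℝ) :
    eVariationOn (fun s => ∑ j ∈ range N, g j s) Set.univ ≤
      ∑ j ∈ range N, eVariationOn (g j) Set.univ := by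
  induction N with
  | zero =>
    simp only [Finset.range_zero, Finset.sum_empty]
    refine le_of_eq (eVariationOn.constant_on ?_)
    rintro _ ⟨a, _, rfl⟩ _ ⟨b, _, rfl⟩
    rfl
  | succ N ih =>
    simp only [Finset.sum_range_succ]
    exact (Bv_add _ _).trans (add_le_add ih le_rfl)

theorem prf_Bv : C_Bv := by
  intro N0 N M ψ hN0 hM hψM hψ
  have hN0' : (0 : ℝ) < N0 := by exact_mod_cast hN0
  have h1 : (fun s : ℝ => if 0 ≤ s then ψ ⌊(N0 : ℝ) * s⌋₊ else 0) =
      fun s => ∑ j ∈ range N,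
        (if (j : ℝ) / N0 ≤ s ∧ s < ((j : ℝ) + 1) / N0 then ψ j else 0) := by
    funext s
    by_cases hs : 0 ≤ s
    · rw [if_pos hs]
      have h2 : ∀ j : ℕ, ((j : ℝ) / N0 ≤ s ∧ s < ((j : ℝ) + 1) / N0) ↔ ⌊(N0 : ℝ) * s⌋₊ = j := by
        intro j
        rw [Nat.floor_eq_iff (mul_nonneg hN0'.le hs), div_le_iff₀ hN0', lt_div_iff₀ hN0',
          mul_comm s]
      simp only [h2]
      rw [Finset.sum_ite_eq]
      split_ifs with h3
      · rfl
      · exact hψ _ (by simpa using h3)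
    · rw [if_neg hs]
      symm
      refine Finset.sum_eq_zero fun j _ => if_neg fun h => hs ?_
      exact le_trans (by positivity) h.1
  rw [h1]
  refine (Bv_sum N _).trans ?_
  have h3 : ∀ j ∈ range N, eVariationOn
      (fun s : ℝ => if (j : ℝ) / N0 ≤ s ∧ s < ((j : ℝ) + 1) / N0 then ψ j else 0) Set.univ ≤
      ENNReal.ofReal (2 * M) := by
    intro j _
    refine (Bv_box _ _ (ψ j) ?_).trans (ENNReal.ofReal_le_ofReal ?_)
    · exact div_le_div_of_nonneg_right (by linarith) hN0'.le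
    · linarith [hψM j]
  refine (Finset.sum_le_sum h3).trans ?_
  rw [Finset.sum_const, Finset.card_range, nsmul_eq_mul, ← ENNReal.ofReal_natCast,
    ← ENNReal.ofReal_mul (Nat.cast_nonneg N)]
  refine ENNReal.ofReal_le_ofReal (le_of_eq ?_)
  ring

end MPb51559.TP
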