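import Pool.Agent.Work.MP_b51559_nt.TP.LAT.Stmts

set_option autoImplicit false

/-!
# Block TP, part LAT, item Cmb: the sum over the lattice points as a sum over their sums
-/

namespace MPb51559.TP

open Finset

/-- the convolution -/
lemma Cmb_conv (N : ℕ) (a b φ : ℕ → ℝ) (hφ : ∀ n, N ≤ n → φ n = 0) :
    ∑ j ∈ range N, a j * ∑ n ∈ range N, b n * φ (j + n) =
      ∑ s ∈ range N, (∑ p ∈ antidiagonal s, a p.1 * b p.2) * φ s := by
  set g : ℕ × ℕ → ℝ := fun p => a p.1 * b p.2 * φ (p.1 + p.2) with hg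
  have h1 : ∑ j ∈ range N, a j * ∑ n ∈ range N, b n * φ (j + n) =
      ∑ p ∈ range N ×ˢ range N, g p := by
    rw [sum_product]
    refine sum_congr rfl fun j _ => ?_
    rw [mul_sum]
    refine sum_congr rfl fun n _ => ?_
    simp only [hg]
    ring
  have h2 : ∑ p ∈ (range N ×ˢ range N).filter (fun p => p.1 + p.2 < N), g p =
      ∑ p ∈ range N ×ˢ range N, g p := by
    refine sum_filter_of_ne fun p _ hp => ?_
    by_contra hcon
    refine hp ?_
    simp only [hg]
    rw [hφ _ (not_lt.1 hcon), mul_zero]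
  have h3 := sum_fiberwise_of_maps_to (s := (range N ×ˢ range N).filter (fun p => p.1 + p.2 < N))
    (t := range N) (g := fun p => p.1 + p.2) (fun p hp => mem_range.2 (mem_filter.1 hp).2) g
  rw [h1, ← h2, ← h3]
  refine sum_congr rfl fun s hs => ?_
  have h4 : ((range N ×ˢ range N).filter (fun p => p.1 + p.2 < N)).filter
      (fun p => p.1 + p.2 = s) = antidiagonal s := by
    ext ⟨x, y⟩
    have hsN := mem_range.1 hs
    simp only [mem_filter, mem_product, mem_range, HasAntidiagonal.mem_antidiagonal]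
    omega
  rw [h4, sum_mul]
  refine sum_congr rfl fun p hp => ?_
  simp only [hg]
  rw [HasAntidiagonal.mem_antidiagonal.1 hp]

/-- splitting off the first coordinate -/
lemma Cmb_cons (k N : ℕ) (g : (Fin (k + 1) → ℕ) → ℝ) :
    ∑ J ∈ Fintype.piFinset (fun _ : Fin (k + 1) => range N), g J =
      ∑ j ∈ range N, ∑ J ∈ Fintype.piFinset (fun _ : Fin k => range N), g (Fin.cons j J) := by
  rw [← sum_product']
  refine sum_nbij' (fun J => (J 0, Fin.tail J)) (fun p => Fin.cons p.1 p.2) ?_ ?_ ?_ ?_ ?_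
  · intro J hJ
    rw [Fintype.mem_piFinset] at hJ
    rw [mem_product, Fintype.mem_piFinset]
    exact ⟨hJ 0, fun i => hJ i.succ⟩
  · intro p hp
    rw [mem_product, Fintype.mem_piFinset] at hp
    rw [Fintype.mem_piFinset]
    intro i
    refine Fin.cases ?_ (fun i => ?_) i
    · rw [Fin.cons_zero]
      exact hp.1
    · rw [Fin.cons_succ]
      exact hp.2 i
  · intro J _
    exact Fin.cons_self_tail J
  · rintro ⟨j, J⟩ _
    refine Prod.ext ?_ ?_
    · exact Fin.cons_zero (α := fun _ : Fin (k + 1) => ℕ) j J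
    · exact Fin.tail_cons (α := fun _ : Fin (k + 1) => ℕ) j J
  · intro J _
    show g J = g (Fin.cons (J 0) (Fin.tail J))
    rw [Fin.cons_self_tail]

theorem prf_Cmb : C_Cmb := by
  intro k
  induction k with
  | zero =>
    intro N f φ hφ
    have h0 : ∑ J ∈ Fintype.piFinset (fun _ : Fin 0 => range N),
        (∏ i, (f i (J i) : ℝ)) * φ (∑ i, J i) = φ 0 := by
      rw [Fintype.piFinset_of_isEmpty, Fintype.sum_unique]
      simp
    rw [h0]
    rcases Nat.eq_zero_or_pos N with rfl | hN
    · rw [range_zero, sum_empty]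
      exact hφ 0 le_rfl
    · rw [sum_eq_single 0]
      · simp
      · intro n _ hn
        simp [PowerSeries.coeff_one, hn]
      · intro h
        exact absurd (mem_range.2 hN) h
  | succ k ih =>
    intro N f φ hφ
    rw [Cmb_cons]
    have h1 : ∀ j ∈ range N, ∑ J ∈ Fintype.piFinset (fun _ : Fin k => range N),
        (∏ i, (f i ((Fin.cons j J : Fin (k + 1) → ℕ) i) : ℝ)) *
          φ (∑ i, (Fin.cons j J : Fin (k + 1) → ℕ) i) =
        (f 0 j : ℝ) * ∑ n ∈ range N, ((PowerSeries.coeff n
          (∏ i : Fin k, PowerSeries.mk (f i.succ) : PowerSeries ℕ) : ℕ) : ℝ) * φ (j + n) := by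
      intro j _
      rw [← ih N (fun i => f i.succ) (fun n => φ (j + n)) fun n hn => hφ _ (by omega), mul_sum]
      refine sum_congr rfl fun J _ => ?_
      rw [Fin.prod_univ_succ, Fin.sum_univ_succ]
      simp only [Fin.cons_zero, Fin.cons_succ]
      ring
    rw [sum_congr rfl h1, Cmb_conv N _ _ φ hφ]
    refine sum_congr rfl fun s _ => ?_
    rw [Fin.prod_univ_succ, PowerSeries.coeff_mul, Nat.cast_sum]
    congr 1
    refine sum_congr rfl fun p _ => ?_
    rw [PowerSeries.coeff_mk, Nat.cast_mul]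

end MPb51559.TP
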