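import Pool.Agent.Work.MP_b51559_nt.TP.LAT.Stmts

set_option autoImplicit false

/-!
# Block TP, part LAT, item Int: the integral of the square of the lattice function
-/

namespace MPb51559.TP

open Finset Filter Topology MeasureTheory
open MPb51559.BG
open scoped Classical

lemma Int_box_iff {N0 : ℕ} (hN : 0 < N0) {s : ℝ} (hs : 0 ≤ s) (j : ℕ) :
    ((j : ℝ) / N0 ≤ s ∧ s < ((j : ℝ) + 1) / N0) ↔ ⌊(N0 : ℝ) * s⌋₊ = j := by
  have hN' : (0 : ℝ) < N0 := by exact_mod_cast hN
  rw [Nat.floor_eq_iff (by positivity), div_le_iff₀ hN', lt_div_iff₀ hN', mul_comm s]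

lemma Int_pt (k N0 Jm : ℕ) (c h : ℕ → ℕ) (hN : 0 < N0) (hh : ∀ n, Jm < n → h n = 0)
    (t : Fin k → ℝ) :
    Fl k N0 c h t ^ 2 =
      ∑ J ∈ Fintype.piFinset (fun _ : Fin k => range (Jm + 1)),
        ((∏ i, ((c (J i) ^ 2 : ℕ) : ℝ)) * (h (∑ i, J i) : ℝ) ^ 2) *
          bx (fun i => (J i : ℝ) / N0) (fun i => ((J i : ℝ) + 1) / N0) t := by
  have hN' : (0 : ℝ) < N0 := by exact_mod_cast hN
  by_cases ht : ∀ i, 0 ≤ t i
  · have hbx : ∀ J : Fin k → ℕ,
        bx (fun i => (J i : ℝ) / N0) (fun i => ((J i : ℝ) + 1) / N0) t =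
          if J = (fun i => ⌊(N0 : ℝ) * t i⌋₊) then 1 else 0 := by
      intro J
      unfold bx
      have hiff : (∀ i, (J i : ℝ) / N0 ≤ t i ∧ t i < ((J i : ℝ) + 1) / N0) ↔
          J = (fun i => ⌊(N0 : ℝ) * t i⌋₊) := by
        rw [funext_iff]
        constructor
        · intro hJ i
          exact ((Int_box_iff hN (ht i) (J i)).1 (hJ i)).symm
        · intro hJ i
          exact (Int_box_iff hN (ht i) (J i)).2 (hJ i).symm
      by_cases hc : J = (fun i => ⌊(N0 : ℝ) * t i⌋₊)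
      · rw [if_pos (hiff.2 hc), if_pos hc]
      · rw [if_neg (fun h' => hc (hiff.1 h')), if_neg hc]
    have hF : Fl k N0 c h t = (∏ i, (c ⌊(N0 : ℝ) * t i⌋₊ : ℝ)) *
        (h (∑ i, ⌊(N0 : ℝ) * t i⌋₊) : ℝ) := by
      unfold Fl
      rw [if_pos ht]
    rw [hF]
    simp only [hbx]
    by_cases hm : (fun i => ⌊(N0 : ℝ) * t i⌋₊) ∈
        Fintype.piFinset (fun _ : Fin k => range (Jm + 1))
    · rw [Finset.sum_eq_single_of_mem _ hm]
      · rw [if_pos rfl, mul_one, mul_pow, ← Finset.prod_pow]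
        congr 1
        apply Finset.prod_congr rfl
        intro i _
        push_cast
        rfl
      · intro J _ hJ
        rw [if_neg hJ, mul_zero]
    · rw [Finset.sum_eq_zero (s := Fintype.piFinset (fun _ : Fin k => range (Jm + 1)))]
      · have : Jm < ∑ i, ⌊(N0 : ℝ) * t i⌋₊ := by
          rw [Fintype.mem_piFinset] at hm
          push Not at hm
          obtain ⟨i, hi⟩ := hm
          rw [Finset.mem_range, not_lt] at hi
          calc Jm < ⌊(N0 : ℝ) * t i⌋₊ := by omega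
            _ ≤ ∑ i, ⌊(N0 : ℝ) * t i⌋₊ :=
              Finset.single_le_sum (f := fun i => ⌊(N0 : ℝ) * t i⌋₊)
                (fun _ _ => Nat.zero_le _) (Finset.mem_univ i)
        rw [hh _ this]
        simp
      · intro J hJ
        rw [if_neg, mul_zero]
        rintro rfl
        exact hm hJ
  · have hF : Fl k N0 c h t = 0 := by
      unfold Fl
      rw [if_neg ht]
    rw [hF, Finset.sum_eq_zero (s := Fintype.piFinset (fun _ : Fin k => range (Jm + 1)))]
    · simp
    · intro J _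
      have : bx (fun i => (J i : ℝ) / N0) (fun i => ((J i : ℝ) + 1) / N0) t = 0 := by
        unfold bx
        rw [if_neg]
        intro hJ
        apply ht
        intro i
        have h1 : (0 : ℝ) ≤ (J i : ℝ) / N0 := by positivity
        exact h1.trans (hJ i).1
      rw [this, mul_zero]

theorem prf_Int (hBox : C_Box) (hCmb : C_Cmb) : C_Int := by
  intro k N0 Jm c h hN hh
  have hN' : (0 : ℝ) < N0 := by exact_mod_cast hN
  have hle : ∀ (J : Fin k → ℕ) (i : Fin k), (J i : ℝ) / N0 ≤ ((J i : ℝ) + 1) / N0 := by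
    intro J i
    gcongr
    linarith
  have h1 : ∫ t, Fl k N0 c h t ^ 2 =
      ∫ t, ∑ J ∈ Fintype.piFinset (fun _ : Fin k => range (Jm + 1)),
        ((∏ i, ((c (J i) ^ 2 : ℕ) : ℝ)) * (h (∑ i, J i) : ℝ) ^ 2) *
          bx (fun i => (J i : ℝ) / N0) (fun i => ((J i : ℝ) + 1) / N0) t := by
    congr 1
    funext t
    exact Int_pt k N0 Jm c h hN hh t
  rw [h1, integral_finsetSum]
  · have h2 : ∀ J ∈ Fintype.piFinset (fun _ : Fin k => range (Jm + 1)),
        ∫ t, ((∏ i, ((c (J i) ^ 2 : ℕ) : ℝ)) * (h (∑ i, J i) : ℝ) ^ 2) *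
          bx (fun i => (J i : ℝ) / N0) (fun i => ((J i : ℝ) + 1) / N0) t =
        (1 / (N0 : ℝ)) ^ k *
          ((∏ i, ((c (J i) ^ 2 : ℕ) : ℝ)) * (h (∑ i, J i) : ℝ) ^ 2) := by
      intro J _
      rw [integral_const_mul, (hBox k _ _ (hle J)).2.2]
      have h3 : ∀ i : Fin k, ((J i : ℝ) + 1) / N0 - (J i : ℝ) / N0 = 1 / (N0 : ℝ) := by
        intro i
        ring
      simp only [h3]
      rw [Finset.prod_const, Finset.card_univ, Fintype.card_fin]
      ring
    rw [Finset.sum_congr rfl h2, ← Finset.mul_sum]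
    congr 1
    have h4 := hCmb k (Jm + 1) (fun _ j => c j ^ 2) (fun n => (h n : ℝ) ^ 2) (by
      intro n hn
      rw [hh n (by omega)]
      simp)
    rw [Finset.prod_const, Finset.card_univ, Fintype.card_fin] at h4
    exact h4
  · intro J _
    exact ((hBox k _ _ (hle J)).2.1).const_mul _

end MPb51559.TP
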