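import Pool.Agent.Work.MP_b51559_nt.TP.LAT.Stmts

set_option autoImplicit false

/-!
# Block TP, part LAT: item JmL, the prime form of the lattice function
-/

namespace MPb51559.TP

open Finset Filter Topology MeasureTheory
open MPb51559.BG
open scoped Classical

section
variable {k : ℕ}

/-- lower corner of the box -/
noncomputable def JmL_lo (N0 : ℕ) (m : Fin k) (J : Fin k → ℕ) (i : Fin k) : ℝ :=
  if i = m then 0 else (J i : ℝ) / N0

/-- upper corner of the box -/
noncomputable def JmL_hi (N0 : ℕ) (m : Fin k) (J : Fin k → ℕ) (i : Fin k) : ℝ :=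
  if i = m then 1 else ((J i : ℝ) + 1) / N0

/-- value on the box -/
noncomputable def JmL_v (N0 Jm : ℕ) (c h : ℕ → ℕ) (m : Fin k) (J : Fin k → ℕ) : ℝ :=
  ((1 / (N0 : ℝ)) * (∏ i ∈ univ.erase m, (c (J i) : ℝ)) *
    (Hn Jm c h (∑ i ∈ univ.erase m, J i) : ℝ)) ^ 2

/-- the index set -/
noncomputable def JmL_S (Jm : ℕ) (m : Fin k) : Finset (Fin k → ℕ) :=
  (Fintype.piFinset (fun _ : Fin k => range (Jm + 1))).filter (fun J => J m = 0)

theorem JmL_Hn {Jm : ℕ} (c h : ℕ → ℕ) {n : ℕ} (hn : Jm < n) : Hn Jm c h n = 0 := by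
  unfold Hn
  have : Jm + 1 - n = 0 := by omega
  rw [this]
  simp

theorem JmL_le (N0 : ℕ) (m : Fin k) (J : Fin k → ℕ) (i : Fin k) :
    JmL_lo N0 m J i ≤ JmL_hi N0 m J i := by
  unfold JmL_lo JmL_hi
  split_ifs
  · exact zero_le_one
  · exact div_le_div_of_nonneg_right (by linarith) (Nat.cast_nonneg _)

theorem JmL_prod (N0 : ℕ) (m : Fin k) (J : Fin k → ℕ) :
    ∏ i, (JmL_hi N0 m J i - JmL_lo N0 m J i) = (1 / (N0 : ℝ)) ^ (k - 1) := by
  rw [← Finset.mul_prod_erase univ _ (mem_univ m)]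
  have h1 : JmL_hi N0 m J m - JmL_lo N0 m J m = 1 := by
    unfold JmL_lo JmL_hi
    simp
  have h2 : ∏ i ∈ univ.erase m, (JmL_hi N0 m J i - JmL_lo N0 m J i) =
      ∏ _i ∈ univ.erase m, (1 / (N0 : ℝ)) := by
    refine prod_congr rfl fun i hi => ?_
    have hi' : i ≠ m := (mem_erase.1 hi).1
    unfold JmL_lo JmL_hi
    rw [if_neg hi', if_neg hi']
    ring
  rw [h1, h2, prod_const, card_erase_of_mem (mem_univ m), card_univ, Fintype.card_fin, one_mul]

theorem JmL_v_nonneg (N0 Jm : ℕ) (c h : ℕ → ℕ) (m : Fin k) (J : Fin k → ℕ) :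
    0 ≤ JmL_v N0 Jm c h m J := sq_nonneg _

theorem JmL_bx_nonneg (lo hi t : Fin k → ℝ) : 0 ≤ bx lo hi t := by
  unfold bx
  split_ifs
  · exact zero_le_one
  · exact le_rfl

theorem JmL_bx_mem {N0 : ℕ} {m : Fin k} {J : Fin k → ℕ} {t : Fin k → ℝ}
    (hb : bx (JmL_lo N0 m J) (JmL_hi N0 m J) t ≠ 0) :
    (0 ≤ t m ∧ t m < 1) ∧ ∀ i, i ≠ m → (J i : ℝ) / N0 ≤ t i ∧ t i < ((J i : ℝ) + 1) / N0 := by
  unfold bx at hb
  have h0 : ∀ i, JmL_lo N0 m J i ≤ t i ∧ t i < JmL_hi N0 m J i := by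
    by_contra hne
    exact hb (if_neg hne)
  refine ⟨?_, fun i hi => ?_⟩
  · have := h0 m
    unfold JmL_lo JmL_hi at this
    simpa using this
  · have := h0 i
    unfold JmL_lo JmL_hi at this
    rwa [if_neg hi, if_neg hi] at this

/-- on the slab the box is the one of the floors -/
theorem JmL_bx {N0 : ℕ} (hN : 0 < N0) {m : Fin k} {t : Fin k → ℝ} (htm : 0 ≤ t m ∧ t m < 1)
    (ht : ∀ i, i ≠ m → 0 ≤ t i) (J : Fin k → ℕ) (hJ : J m = 0) :
    bx (JmL_lo N0 m J) (JmL_hi N0 m J) t =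
      if J = (fun i => if i = m then 0 else ⌊(N0 : ℝ) * t i⌋₊) then 1 else 0 := by
  have hN' : (0 : ℝ) < N0 := by exact_mod_cast hN
  by_cases hJe : J = (fun i => if i = m then 0 else ⌊(N0 : ℝ) * t i⌋₊)
  · rw [if_pos hJe]
    unfold bx
    rw [if_pos]
    intro i
    unfold JmL_lo JmL_hi
    by_cases hi : i = m
    · rw [if_pos hi, if_pos hi, hi]
      exact htm
    · rw [if_neg hi, if_neg hi]
      have e : J i = ⌊(N0 : ℝ) * t i⌋₊ := by
        rw [hJe]
        exact if_neg hi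
      rw [e]
      have h0 : 0 ≤ (N0 : ℝ) * t i := mul_nonneg hN'.le (ht i hi)
      constructor
      · rw [div_le_iff₀ hN']
        have := Nat.floor_le h0
        linarith
      · rw [lt_div_iff₀ hN']
        have := Nat.lt_floor_add_one ((N0 : ℝ) * t i)
        linarith
  · rw [if_neg hJe]
    by_contra hb
    apply hJe
    obtain ⟨-, h2⟩ := JmL_bx_mem hb
    funext i
    by_cases hi : i = m
    · rw [if_pos hi, hi, hJ]
    · rw [if_neg hi]
      obtain ⟨h3, h4⟩ := h2 i hi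
      rw [div_le_iff₀ hN'] at h3
      rw [lt_div_iff₀ hN'] at h4
      symm
      rw [Nat.floor_eq_iff (mul_nonneg hN'.le (ht i hi))]
      constructor <;> linarith

/-- the square of the marginal is a finite sum of boxes -/
theorem JmL_marg (hMg : C_Mg) {N0 Jm : ℕ} (c h : ℕ → ℕ) (hN : 0 < N0)
    (hh : ∀ n, Jm < n → h n = 0) (m : Fin k) (t : Fin k → ℝ) (htm : 0 ≤ t m ∧ t m < 1) :
    marg (Fl k N0 c h) m t ^ 2 =
      ∑ J ∈ JmL_S Jm m, JmL_v N0 Jm c h m J * bx (JmL_lo N0 m J) (JmL_hi N0 m J) t := by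
  have hN' : (0 : ℝ) < N0 := by exact_mod_cast hN
  rw [hMg k N0 Jm c h hN hh m t]
  by_cases ht : ∀ i, i ≠ m → 0 ≤ t i
  · rw [if_pos ht]
    set J0 : Fin k → ℕ := fun i => if i = m then 0 else ⌊(N0 : ℝ) * t i⌋₊ with hJ0
    have h1 : ∑ J ∈ JmL_S Jm m, JmL_v N0 Jm c h m J * bx (JmL_lo N0 m J) (JmL_hi N0 m J) t =
        ∑ J ∈ JmL_S Jm m, if J = J0 then JmL_v N0 Jm c h m J else 0 := by
      refine sum_congr rfl fun J hJ => ?_
      rw [JmL_bx hN htm ht J (mem_filter.1 hJ).2, mul_ite, mul_one, mul_zero]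
    rw [h1, sum_ite_eq']
    have hp : ∏ i ∈ univ.erase m, (c (J0 i) : ℝ) =
        ∏ i ∈ univ.erase m, (c ⌊(N0 : ℝ) * t i⌋₊ : ℝ) := by
      refine prod_congr rfl fun i hi => ?_
      rw [hJ0]
      dsimp only
      rw [if_neg (mem_erase.1 hi).1]
    have hs : ∑ i ∈ univ.erase m, J0 i = ∑ i ∈ univ.erase m, ⌊(N0 : ℝ) * t i⌋₊ := by
      refine sum_congr rfl fun i hi => ?_
      rw [hJ0]
      dsimp only
      rw [if_neg (mem_erase.1 hi).1]
    have hv : JmL_v N0 Jm c h m J0 = ((1 / (N0 : ℝ)) *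
        (∏ i ∈ univ.erase m, (c ⌊(N0 : ℝ) * t i⌋₊ : ℝ)) *
        (Hn Jm c h (∑ i ∈ univ.erase m, ⌊(N0 : ℝ) * t i⌋₊) : ℝ)) ^ 2 := by
      unfold JmL_v
      rw [hp, hs]
    split_ifs with hmem
    · exact hv.symm
    · -- some coordinate is larger than Jm
      have h2 : ∃ i, i ≠ m ∧ Jm < ⌊(N0 : ℝ) * t i⌋₊ := by
        by_contra hne
        push Not at hne
        apply hmem
        unfold JmL_S
        rw [mem_filter, Fintype.mem_piFinset]
        refine ⟨fun i => ?_, ?_⟩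
        · rw [mem_range, hJ0]
          dsimp only
          split_ifs with hi
          · omega
          · have := hne i hi
            omega
        · rw [hJ0]
          simp
      obtain ⟨i, hi, hi2⟩ := h2
      have h3 : ⌊(N0 : ℝ) * t i⌋₊ ≤ ∑ i ∈ univ.erase m, ⌊(N0 : ℝ) * t i⌋₊ :=
        single_le_sum (f := fun i => ⌊(N0 : ℝ) * t i⌋₊) (fun _ _ => Nat.zero_le _)
          (mem_erase.2 ⟨hi, mem_univ i⟩)
      rw [JmL_Hn c h (lt_of_lt_of_le hi2 h3)]
      simp
  · rw [if_neg ht]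
    push Not at ht
    obtain ⟨i, hi, hi2⟩ := ht
    symm
    rw [zero_pow two_ne_zero]
    refine sum_eq_zero fun J _ => ?_
    by_contra hne
    have hb := right_ne_zero_of_mul hne
    obtain ⟨-, h2⟩ := JmL_bx_mem hb
    have h3 := (h2 i hi).1
    have h4 : 0 ≤ (J i : ℝ) / N0 := by positivity
    linarith

/-- the combinatorial part -/
theorem JmL_comb (hCmb : C_Cmb) (N0 Jm M : ℕ) (c h : ℕ → ℕ) (m : Fin k) :
    ∑ J ∈ JmL_S Jm m, (if ∑ i ∈ univ.erase m, J i < M then JmL_v N0 Jm c h m J else 0) =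
      (1 / (N0 : ℝ)) ^ 2 * ∑ n ∈ range M, (bco c (k - 1) n : ℝ) * (Hn Jm c h n : ℝ) ^ 2 := by
  set f : Fin k → ℕ → ℕ := fun i j => if i = m then (if j = 0 then 1 else 0) else c j ^ 2 with hf
  set φ : ℕ → ℝ := fun n => if n < M then (Hn Jm c h n : ℝ) ^ 2 else 0 with hφ
  have hφ0 : ∀ n, Jm + 1 ≤ n → φ n = 0 := by
    intro n hn
    rw [hφ]
    dsimp only
    rw [JmL_Hn c h (by omega)]
    simp
  have h1 := hCmb k (Jm + 1) f φ hφ0
  have h2 : ∑ J ∈ JmL_S Jm m,
      (if ∑ i ∈ univ.erase m, J i < M then JmL_v N0 Jm c h m J else 0) =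
      (1 / (N0 : ℝ)) ^ 2 * ∑ J ∈ Fintype.piFinset (fun _ : Fin k => range (Jm + 1)),
        (∏ i, (f i (J i) : ℝ)) * φ (∑ i, J i) := by
    unfold JmL_S
    rw [sum_filter, mul_sum]
    refine sum_congr rfl fun J _ => ?_
    rw [← Finset.mul_prod_erase univ _ (mem_univ m), ← Finset.add_sum_erase univ J (mem_univ m)]
    have e1 : ∏ i ∈ univ.erase m, (f i (J i) : ℝ) =
        (∏ i ∈ univ.erase m, (c (J i) : ℝ)) ^ 2 := by
      rw [← prod_pow]
      refine prod_congr rfl fun i hi => ?_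
      rw [hf]
      dsimp only
      rw [if_neg (mem_erase.1 hi).1]
      push_cast
      rfl
    rw [e1]
    have e2 : f m (J m) = if J m = 0 then 1 else 0 := by
      rw [hf]
      dsimp only
      rw [if_pos rfl]
    rw [e2]
    by_cases hJ : J m = 0
    · rw [if_pos hJ, if_pos hJ, hJ, zero_add, hφ]
      dsimp only
      split_ifs
      · unfold JmL_v
        push_cast
        ring
      · simp
    · rw [if_neg hJ, if_neg hJ]
      simp
  have h3 : (∏ i, PowerSeries.mk (f i) : PowerSeries ℕ) =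
      (PowerSeries.mk fun j => c j ^ 2 : PowerSeries ℕ) ^ (k - 1) := by
    rw [← Finset.mul_prod_erase univ _ (mem_univ m)]
    have e1 : (PowerSeries.mk (f m) : PowerSeries ℕ) = 1 := by
      ext n
      rw [PowerSeries.coeff_mk, PowerSeries.coeff_one, hf]
      dsimp only
      rw [if_pos rfl]
    have e2 : ∏ i ∈ univ.erase m, (PowerSeries.mk (f i) : PowerSeries ℕ) =
        ∏ _i ∈ univ.erase m, (PowerSeries.mk fun j => c j ^ 2 : PowerSeries ℕ) := by
      refine prod_congr rfl fun i hi => ?_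
      congr 1
      funext j
      rw [hf]
      dsimp only
      rw [if_neg (mem_erase.1 hi).1]
    rw [e1, e2, one_mul, prod_const, card_erase_of_mem (mem_univ m), card_univ, Fintype.card_fin]
  rw [h2, h1, h3]
  congr 1
  have h4 : ∑ n ∈ range (Jm + 1), ((PowerSeries.coeff n
      ((PowerSeries.mk fun j => c j ^ 2 : PowerSeries ℕ) ^ (k - 1)) : ℕ) : ℝ) * φ n =
      ∑ n ∈ (range (Jm + 1)).filter (fun n => n < M),
        (bco c (k - 1) n : ℝ) * (Hn Jm c h n : ℝ) ^ 2 := by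
    rw [sum_filter]
    refine sum_congr rfl fun n _ => ?_
    rw [hφ]
    dsimp only
    unfold bco
    split_ifs
    · rfl
    · rw [mul_zero]
  rw [h4]
  refine sum_subset ?_ ?_
  · intro n hn
    rw [mem_filter] at hn
    exact mem_range.2 hn.2
  · intro n hn hn2
    rw [mem_range] at hn
    rw [mem_filter, mem_range] at hn2
    have : Jm < n := by
      by_contra hlt
      exact hn2 ⟨by omega, hn⟩
    rw [JmL_Hn c h this]
    simp

end

theorem prf_JmL (hMg : C_Mg) (hBox : C_Box) (hCmb : C_Cmb) : C_JmL := by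
  intro k N0 Jm c h hk hh h1 h2 m
  have hN0 : 0 < N0 := by omega
  have hN' : (0 : ℝ) < N0 := by exact_mod_cast hN0
  set T : ℝ := ((Jm : ℝ) + k) / N0 with hT
  set M : ℕ := 2 * N0 - 2 * k + 2 - Jm with hM
  have hrho : ∀ s, (Pl T).rho s = if s ≤ 2 - T then 1 else 0 := by
    intro s
    unfold Sl.rho Pl
    simp
  have hrho0 : ∀ s, 0 ≤ (Pl T).rho s := by
    intro s
    rw [hrho s]
    split_ifs
    · exact zero_le_one
    · exact le_rfl
  set G : (Fin k → ℝ) → ℝ := fun t =>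
    ∑ J ∈ JmL_S Jm m, JmL_v N0 Jm c h m J * bx (JmL_lo N0 m J) (JmL_hi N0 m J) t with hG
  have hbI : ∀ J : Fin k → ℕ, Integrable (bx (JmL_lo N0 m J) (JmL_hi N0 m J)) := fun J =>
    (hBox k _ _ (JmL_le N0 m J)).2.1
  have hGint : Integrable G := integrable_finsetSum _ fun J _ => (hbI J).const_mul _
  have hmeas : Measurable fun t : Fin k → ℝ => (Pl T).rho (∑ j ∈ univ.erase m, t j) := by
    have e : (fun t : Fin k → ℝ => (Pl T).rho (∑ j ∈ univ.erase m, t j)) =
        fun t => if ∑ j ∈ univ.erase m, t j ≤ 2 - T then 1 else 0 := by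
      funext t
      exact hrho _
    rw [e]
    refine Measurable.ite ?_ measurable_const measurable_const
    exact measurableSet_le (Finset.measurable_sum _ fun j _ => measurable_pi_apply j)
      measurable_const
  have hrG : Integrable (fun t => (Pl T).rho (∑ j ∈ univ.erase m, t j) * G t) := by
    refine Integrable.bdd_mul (c := 1) hGint hmeas.aestronglyMeasurable ?_
    refine Filter.Eventually.of_forall fun t => ?_
    rw [hrho, Real.norm_eq_abs]
    split_ifs <;> simp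
  -- the slab
  have hD : MeasurableSet {t : Fin k → ℝ | 0 ≤ t m ∧ t m < 1} :=
    (measurableSet_le measurable_const (measurable_pi_apply m)).inter
      (measurableSet_lt (measurable_pi_apply m) measurable_const)
  have hG0 : ∀ t : Fin k → ℝ, ¬ (0 ≤ t m ∧ t m < 1) → G t = 0 := by
    intro t ht
    rw [hG]
    refine sum_eq_zero fun J _ => ?_
    by_contra hne
    exact ht (JmL_bx_mem (right_ne_zero_of_mul hne)).1
  have hJm : BG.Jm (Pl T) (Fl k N0 c h) m =
      ∫ t, (Pl T).rho (∑ j ∈ univ.erase m, t j) * G t := by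
    unfold BG.Jm
    rw [setIntegral_congr_fun (g := fun t => (Pl T).rho (∑ j ∈ univ.erase m, t j) * G t) hD
      (fun t ht => by
        dsimp only
        rw [JmL_marg hMg c h hN0 hh m t ht])]
    refine setIntegral_eq_integral_of_forall_compl_eq_zero fun t ht => ?_
    rw [hG0 t ht, mul_zero]
  -- the lower function
  set L : (Fin k → ℝ) → ℝ := fun t =>
    ∑ J ∈ JmL_S Jm m, (if ∑ i ∈ univ.erase m, J i < M then JmL_v N0 Jm c h m J else 0) *
      bx (JmL_lo N0 m J) (JmL_hi N0 m J) t with hL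
  have hLint : Integrable L := integrable_finsetSum _ fun J _ => (hbI J).const_mul _
  have hLG : ∀ t, L t ≤ (Pl T).rho (∑ j ∈ univ.erase m, t j) * G t := by
    intro t
    rw [hL, hG]
    dsimp only
    rw [mul_sum]
    refine sum_le_sum fun J _ => ?_
    have hv := JmL_v_nonneg N0 Jm c h m J
    have hb := JmL_bx_nonneg (JmL_lo N0 m J) (JmL_hi N0 m J) t
    by_cases hb0 : bx (JmL_lo N0 m J) (JmL_hi N0 m J) t = 0
    · rw [hb0]
      simp
    · split_ifs with hs
      · have hr : (Pl T).rho (∑ j ∈ univ.erase m, t j) = 1 := by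
          rw [hrho, if_pos]
          obtain ⟨-, h3⟩ := JmL_bx_mem hb0
          have h4 : ∑ j ∈ univ.erase m, t j ≤ ∑ j ∈ univ.erase m, ((J j : ℝ) + 1) / N0 :=
            sum_le_sum fun j hj => (h3 j (mem_erase.1 hj).1).2.le
          have h5 : ∑ j ∈ univ.erase m, ((J j : ℝ) + 1) / N0 =
              (((∑ j ∈ univ.erase m, J j : ℕ) : ℝ) + ((k - 1 : ℕ) : ℝ)) / N0 := by
            rw [← sum_div, sum_add_distrib, sum_const, card_erase_of_mem (mem_univ m), card_univ,
              Fintype.card_fin, nsmul_eq_mul, mul_one]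
            push_cast
            rfl
          have h6 : ((∑ j ∈ univ.erase m, J j : ℕ) : ℝ) + ((k - 1 : ℕ) : ℝ) + (Jm + k) ≤
              2 * N0 := by
            have : ∑ j ∈ univ.erase m, J j + (k - 1) + (Jm + k) ≤ 2 * N0 := by omega
            exact_mod_cast this
          rw [h5] at h4
          refine h4.trans ?_
          rw [hT, div_le_iff₀ hN', sub_mul, div_mul_cancel₀ _ hN'.ne']
          linarith
        rw [hr, one_mul]
      · rw [zero_mul]
        exact mul_nonneg (hrho0 _) (mul_nonneg hv hb)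
  have hLI : ∫ t, L t = (1 / (N0 : ℝ)) ^ (k - 1) * ∑ J ∈ JmL_S Jm m,
      (if ∑ i ∈ univ.erase m, J i < M then JmL_v N0 Jm c h m J else 0) := by
    rw [hL, integral_finsetSum _ fun J _ => (hbI J).const_mul _, mul_sum]
    refine sum_congr rfl fun J _ => ?_
    rw [integral_const_mul, (hBox k _ _ (JmL_le N0 m J)).2.2, JmL_prod]
    ring
  rw [hJm]
  calc (1 / (N0 : ℝ)) ^ (k + 1) *
        ∑ n ∈ range M, (bco c (k - 1) n : ℝ) * (Hn Jm c h n : ℝ) ^ 2
      = ∫ t, L t := by
        rw [hLI, JmL_comb hCmb]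
        have : (1 / (N0 : ℝ)) ^ (k + 1) = (1 / (N0 : ℝ)) ^ (k - 1) * (1 / (N0 : ℝ)) ^ 2 := by
          rw [← pow_add]
          congr 1
          omega
        rw [this]
        ring
    _ ≤ _ := integral_mono hLint hrG hLG

end MPb51559.TP
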