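import Pool.Agent.Work.MP_b51559_nt.TP.LAT.Stmts

set_option autoImplicit false

/-! # Block TP, part LAT, item Mg: the marginals of the lattice function -/

namespace MPb51559.TP

open Finset Filter Topology MeasureTheory
open MPb51559.BG
open scoped Classical

theorem Mg_floor_sum {k : ℕ} (N0 : ℕ) (m : Fin k) (t : Fin k → ℝ) (s : ℝ) :
    ∑ i, ⌊(N0 : ℝ) * Function.update t m s i⌋₊ =
      (∑ i ∈ univ.erase m, ⌊(N0 : ℝ) * t i⌋₊) + ⌊(N0 : ℝ) * s⌋₊ := by
  rw [← Finset.add_sum_erase univ _ (mem_univ m), Function.update_self, add_comm]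
  congr 1
  refine Finset.sum_congr rfl fun i hi => ?_
  rw [Function.update_of_ne (ne_of_mem_erase hi)]

theorem Mg_prod {k : ℕ} (N0 : ℕ) (c : ℕ → ℕ) (m : Fin k) (t : Fin k → ℝ) (s : ℝ) :
    ∏ i, (c ⌊(N0 : ℝ) * Function.update t m s i⌋₊ : ℝ) =
      (∏ i ∈ univ.erase m, (c ⌊(N0 : ℝ) * t i⌋₊ : ℝ)) * (c ⌊(N0 : ℝ) * s⌋₊ : ℝ) := by
  rw [← Finset.mul_prod_erase univ _ (mem_univ m), Function.update_self, mul_comm]
  congr 1
  refine Finset.prod_congr rfl fun i hi => ?_
  rw [Function.update_of_ne (ne_of_mem_erase hi)]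

theorem Mg_Hn (Jm : ℕ) (c h : ℕ → ℕ) (hh : ∀ n, Jm < n → h n = 0) (n : ℕ) :
    ∑ j ∈ range (Jm + 1), (c j : ℝ) * (h (n + j) : ℝ) = (Hn Jm c h n : ℝ) := by
  unfold Hn
  push_cast
  symm
  refine Finset.sum_subset (range_mono (Nat.sub_le _ _)) fun j _ hj => ?_
  rw [mem_range, not_lt] at hj
  rw [hh (n + j) (by omega)]
  simp

theorem prf_Mg (hOne : C_One) : C_Mg := by
  intro k N0 Jm c h hN0 hh m t
  unfold marg
  by_cases hpos : ∀ i, i ≠ m → 0 ≤ t i
  · rw [if_pos hpos]
    obtain ⟨ψ, hψ⟩ : ∃ ψ : ℕ → ℝ, ψ = fun j : ℕ =>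
        (∏ i ∈ univ.erase m, (c ⌊(N0 : ℝ) * t i⌋₊ : ℝ)) * (c j : ℝ) *
          (h ((∑ i ∈ univ.erase m, ⌊(N0 : ℝ) * t i⌋₊) + j) : ℝ) := ⟨_, rfl⟩
    have hpt : ∀ s : ℝ, Fl k N0 c h (Function.update t m s) =
        if 0 ≤ s then ψ ⌊(N0 : ℝ) * s⌋₊ else 0 := by
      intro s
      rw [hψ]
      unfold Fl
      by_cases hs : 0 ≤ s
      · have hall : ∀ i, 0 ≤ Function.update t m s i := by
          intro i
          by_cases hi : i = m
          · subst hi
            rw [Function.update_self]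
            exact hs
          · rw [Function.update_of_ne hi]
            exact hpos i hi
        rw [if_pos hall, if_pos hs, Mg_floor_sum, Mg_prod]
      · rw [if_neg hs, if_neg]
        intro hcon
        have := hcon m
        rw [Function.update_self] at this
        exact hs this
    rw [MeasureTheory.integral_congr_ae (Filter.Eventually.of_forall hpt),
      hOne N0 (Jm + 1) ψ hN0]
    · rw [mul_assoc, hψ]
      congr 1
      rw [← Mg_Hn Jm c h hh, Finset.mul_sum]
      refine Finset.sum_congr rfl fun j _ => ?_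
      ring
    · intro j hj
      rw [hψ]
      simp only
      rw [hh _ (by omega)]
      simp
  · rw [if_neg hpos]
    have hpt : ∀ s : ℝ, Fl k N0 c h (Function.update t m s) = 0 := by
      intro s
      unfold Fl
      rw [if_neg]
      intro hcon
      apply hpos
      intro i hi
      have := hcon i
      rwa [Function.update_of_ne hi] at this
    rw [MeasureTheory.integral_congr_ae (Filter.Eventually.of_forall hpt)]
    simp

end MPb51559.TP
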