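import Pool.Agent.Work.MP_b51559_nt.TP.LAT.Stmts

set_option autoImplicit false

/-!
# Block TP, part LAT, item One
-/

namespace MPb51559.TP

open Finset Filter Topology MeasureTheory
open MPb51559.BG
open scoped Classical

theorem One_fun (N0 N : ℕ) (ψ : ℕ → ℝ) (hN0 : 0 < N0) (hψ : ∀ j, N ≤ j → ψ j = 0) (s : ℝ) :
    (if 0 ≤ s then ψ ⌊(N0 : ℝ) * s⌋₊ else 0) =
      ∑ j ∈ range N, (Set.Ico ((j : ℝ) / N0) (((j : ℝ) + 1) / N0)).indicator (fun _ => ψ j) s := by
  have hN0' : (0 : ℝ) < N0 := by exact_mod_cast hN0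
  have hmem : ∀ j : ℕ, s ∈ Set.Ico ((j : ℝ) / N0) (((j : ℝ) + 1) / N0) ↔
      0 ≤ s ∧ ⌊(N0 : ℝ) * s⌋₊ = j := by
    intro j
    rw [Set.mem_Ico, div_le_iff₀ hN0', lt_div_iff₀ hN0', mul_comm s]
    constructor
    · rintro ⟨h1, h2⟩
      have h3 : 0 ≤ (N0 : ℝ) * s := le_trans (Nat.cast_nonneg j) h1
      refine ⟨?_, (Nat.floor_eq_iff h3).2 ⟨h1, h2⟩⟩
      by_contra h
      have := mul_neg_of_pos_of_neg hN0' (not_le.1 h)
      linarith
    · rintro ⟨h1, h2⟩
      exact (Nat.floor_eq_iff (mul_nonneg hN0'.le h1)).1 h2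
  by_cases hs : 0 ≤ s
  · rw [if_pos hs]
    by_cases hj : ⌊(N0 : ℝ) * s⌋₊ < N
    · rw [Finset.sum_eq_single ⌊(N0 : ℝ) * s⌋₊]
      · rw [Set.indicator_of_mem ((hmem _).2 ⟨hs, rfl⟩)]
      · intro j _ hne
        refine Set.indicator_of_notMem ?_ _
        intro h
        exact hne ((hmem j).1 h).2.symm
      · intro h
        exact absurd (mem_range.2 hj) h
    · rw [hψ _ (not_lt.1 hj)]
      symm
      refine Finset.sum_eq_zero fun j hj' => ?_
      refine Set.indicator_of_notMem ?_ _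
      intro h
      have := ((hmem j).1 h).2
      rw [this] at hj
      exact hj (mem_range.1 hj')
  · rw [if_neg hs]
    symm
    refine Finset.sum_eq_zero fun j _ => ?_
    refine Set.indicator_of_notMem ?_ _
    intro h
    exact hs ((hmem j).1 h).1

theorem prf_One : C_One := by
  intro N0 N ψ hN0 hψ
  have hN0' : (0 : ℝ) < N0 := by exact_mod_cast hN0
  have h1 : (fun s : ℝ => if 0 ≤ s then ψ ⌊(N0 : ℝ) * s⌋₊ else 0) = fun s : ℝ =>
      ∑ j ∈ range N, (Set.Ico ((j : ℝ) / N0) (((j : ℝ) + 1) / N0)).indicator (fun _ => ψ j) s := by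
    funext s
    exact One_fun N0 N ψ hN0 hψ s
  rw [h1, integral_finsetSum]
  · rw [Finset.mul_sum]
    refine Finset.sum_congr rfl fun j _ => ?_
    rw [integral_indicator measurableSet_Ico, setIntegral_const, Real.volume_real_Ico,
      smul_eq_mul]
    have h2 : ((j : ℝ) + 1) / N0 - (j : ℝ) / N0 = 1 / N0 := by ring
    rw [h2, max_eq_left (by positivity)]
  · intro j _
    exact (integrableOn_const (by simp)).integrable_indicator measurableSet_Ico

end MPb51559.TP
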