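import Pool.Agent.Work.MP_b51559_nt.TP.LAT.Stmts

set_option autoImplicit false

/-!
# Block TP, part LAT, item Sh: the shift of the last factor
-/

namespace MPb51559.TP

open Finset Filter Topology MeasureTheory
open MPb51559.BG

theorem prf_Sh : C_Sh := by
  intro k Jm c h hk
  obtain ⟨k, rfl⟩ : ∃ l, k = l + 1 := ⟨k - 1, by omega⟩
  rw [Nat.add_sub_cancel]
  have h1 : ∀ s, bco c (k + 1) s * h s ^ 2 =
      ∑ n ∈ range (s + 1), (fun a b => bco c k a * (c b ^ 2 * h (a + b) ^ 2)) n (s - n) := by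
    intro s
    rw [← Finset.Nat.sum_antidiagonal_eq_sum_range_succ
      (fun a b => bco c k a * (c b ^ 2 * h (a + b) ^ 2)) s]
    unfold bco
    rw [pow_succ, PowerSeries.coeff_mul, sum_mul]
    apply sum_congr rfl
    intro p hp
    rw [Finset.HasAntidiagonal.mem_antidiagonal] at hp
    rw [PowerSeries.coeff_mk, hp]
    ring
  rw [sum_congr rfl fun s _ => h1 s,
    sum_range_diag_flip (Jm + 1) (fun a b => bco c k a * (c b ^ 2 * h (a + b) ^ 2))]
  apply sum_congr rfl
  intro n _
  unfold Qn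
  rw [mul_sum]

end MPb51559.TP
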