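import Pool.Agent.Work.MP_b51559_nt.TP.Defs

set_option autoImplicit false

/-!
# Block TP, part LAT: the integrals of the lattice function are finite sums

Seven independent items. `theorem prf_X : C_X` in file `TP/LAT/X.lean`, namespace `MPb51559.TP`,
importing this file (items whose statement has the form `A → B` may use `A` as hypothesis only).
-/

namespace MPb51559.TP

open Finset Filter Topology MeasureTheory
open MPb51559.BG
open scoped Classical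

/-- the lattice function -/
noncomputable def Fl (k N0 : ℕ) (c h : ℕ → ℕ) (t : Fin k → ℝ) : ℝ :=
  if ∀ i, 0 ≤ t i then
    (∏ i, (c ⌊(N0 : ℝ) * t i⌋₊ : ℝ)) * (h (∑ i, ⌊(N0 : ℝ) * t i⌋₊) : ℝ) else 0

/-- trivial slices -/
noncomputable def Pl (T : ℝ) : Sl := { T := T, L := 0, z := fun _ => 0, Lam := fun _ => 0 }

/-- indicator of the box with corner `lo` and `hi` -/
noncomputable def bx {k : ℕ} (lo hi : Fin k → ℝ) (t : Fin k → ℝ) : ℝ :=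
  if ∀ i, lo i ≤ t i ∧ t i < hi i then 1 else 0

/-- (Cmb) EASY-MEDIUM. Induction on `k`. `k = 0`: `piFinset` has one element (the empty function),
both sides are `φ 0` (if `N = 0` then `φ 0 = 0` by `hφ`; the coefficient `n` of `1` is `0` for
`n > 0`). Step: `Fin (k+1) → ℕ` is `ℕ × (Fin k → ℕ)` (`Fin.consEquiv` / `Fin.cons`,
`Fin.prod_univ_succ`, `Fin.sum_univ_succ`, `Fin.mem_piFinset_succ`), the left side is
`∑ j < N, f 0 j * ∑ J', (∏ f (i.succ) (J' i)) * φ (j + ∑ J')`, induction hypothesis with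
`φ' n = φ (j + n)` (zero for `n ≥ N`), giving `∑ j < N, ∑ n < N, f 0 j * coeff n P * φ (j + n)`;
the right side is `∑ s < N, ∑ (j,n) ∈ antidiagonal s, f 0 j * coeff n P * φ s`
(`PowerSeries.coeff_mul`, `coeff_mk`); the pairs `(j,n)` with `j + n ≥ N` contribute 0. -/
def C_Cmb : Prop := ∀ (k N : ℕ) (f : Fin k → ℕ → ℕ) (φ : ℕ → ℝ), (∀ n, N ≤ n → φ n = 0) →
  ∑ J ∈ Fintype.piFinset (fun _ : Fin k => range N), (∏ i, (f i (J i) : ℝ)) * φ (∑ i, J i) =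
    ∑ n ∈ range N,
      ((PowerSeries.coeff n (∏ i, PowerSeries.mk (f i) : PowerSeries ℕ) : ℕ) : ℝ) * φ n

/-- (Box) EASY. `bx lo hi` is the indicator of `Set.pi univ (fun i => Ico (lo i) (hi i))`, which is
measurable with volume `∏ (hi i - lo i)` (`Real.volume_pi_Ico`, `ENNReal.toReal_prod` /
`Real.volume_pi_Ico_toReal`), so integrable (`integrable_indicator_iff`, `integrableOn_const`). -/
def C_Box : Prop := ∀ (k : ℕ) (lo hi : Fin k → ℝ), (∀ i, lo i ≤ hi i) →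
  Measurable (bx lo hi) ∧ Integrable (bx lo hi) ∧ ∫ t, bx lo hi t = ∏ i, (hi i - lo i)

/-- (One) EASY. The integrand is `∑ j ∈ range N, ψ j * indicator (Ico (j/N0) ((j+1)/N0)) 1 s`
(`Nat.floor_eq_iff`), each term has integral `ψ j / N0`. -/
def C_One : Prop := ∀ (N0 N : ℕ) (ψ : ℕ → ℝ), 0 < N0 → (∀ j, N ≤ j → ψ j = 0) →
  ∫ s : ℝ, (if 0 ≤ s then ψ ⌊(N0 : ℝ) * s⌋₊ else 0) = (1 / (N0 : ℝ)) * ∑ j ∈ range N, ψ j

/-- (Bv) EASY-MEDIUM. `f s = ∑ j ∈ range N, ψ j * 1[j/N0 ≤ s < (j+1)/N0]`. The variation is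
subadditive (`BG/C/PH.lean`, `PH_add`: `eVariationOn (f + g) ≤ eVariationOn f + eVariationOn g`),
and the variation of `v * 1[a ≤ s < b]` is at most `2 |v|`: it is the difference of the functions
`v * 1[a ≤ s]` and `v * 1[b ≤ s]` (for `a ≤ b`), both monotone or antitone, with variation at most
`|v|` (`MonotoneOn.eVariationOn_le` on `univ ∩ Icc a b`, or directly from the definition:
for a monotone bounded function the sum telescopes; `eVariationOn.comp_le_of_monotoneOn`,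
`eVariationOn` of `s ↦ v * 1[a ≤ s]` = composition of the Lipschitz function `x ↦ v x` on `[0,1]`
with a monotone map). Total `N * 2 M`. -/
def C_Bv : Prop := ∀ (N0 N : ℕ) (M : ℝ) (ψ : ℕ → ℝ), 0 < N0 → 0 ≤ M → (∀ j, |ψ j| ≤ M) →
  (∀ j, N ≤ j → ψ j = 0) →
  eVariationOn (fun s : ℝ => if 0 ≤ s then ψ ⌊(N0 : ℝ) * s⌋₊ else 0) Set.univ ≤
    ENNReal.ofReal (2 * N * M)

/-- (Tst) EASY-MEDIUM. Measurable: products, finite sums and compositions of `Nat.floor` with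
functions on `ℕ` (`Nat.measurable_floor`, `measurable_from_top`, `Measurable.ite`,
`MeasurableSet` of a finite intersection of closed half spaces). Support: if `Fl t ≠ 0` then
`t i ≥ 0` and `∑ ⌊N0 t_i⌋ ≤ Jm`, and `N0 t_i < ⌊N0 t_i⌋ + 1`, so `N0 ∑ t_i ≤ Jm + k`.
Bounded: on the support every `⌊N0 t_i⌋ ≤ Jm`, so
`|Fl t| ≤ C ^ k * H` with `C = ∑ j ∈ range (Jm+1), c j`, `H = ∑ j ∈ range (Jm+1), h j`.
Sections: for fixed `t`, `i` the section is `s ↦ if 0 ≤ s then ψ ⌊N0 s⌋ else 0` with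
`ψ j = (if ∀ l ≠ i, 0 ≤ t l then (∏_{l ≠ i} c ⌊N0 t_l⌋) * c j * h (∑_{l ≠ i} ⌊N0 t_l⌋ + j) else 0)`,
`ψ j = 0` for `j > Jm`, `|ψ j| ≤ C ^ k * H`; apply `C_Bv` with `N = Jm + 1`. (Write the product
over `Fin k` as the product over `univ.erase i` times the factor `i`, `Function.update`.) -/
def C_Tst : Prop := ∀ (k N0 Jm : ℕ) (c h : ℕ → ℕ), 0 < N0 → (∀ n, Jm < n → h n = 0) →
  Tst k (((Jm : ℝ) + k) / N0) (Fl k N0 c h)

/-- (Int) EASY-MEDIUM. With `N = Jm + 1`,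
`Fl t ^ 2 = ∑ J ∈ piFinset (range N), (∏ c (J i) ^ 2) * h (∑ J i) ^ 2 * bx (J i / N0) ((J i + 1)/N0) t`
(for given `t` with all `t i ≥ 0` and all `⌊N0 t_i⌋ < N` exactly the term `J i = ⌊N0 t_i⌋` is
not zero; if some `t i < 0` all boxes give 0; if some `⌊N0 t_i⌋ ≥ N` then
`h (∑ ⌊N0 t_i⌋) = 0`). Integrate with `C_Box` (each box has volume `(1/N0)^k`), then apply
`C_Cmb` with `f i = fun j => c j ^ 2`, `φ n = h n ^ 2`. -/
def C_Int : Prop := ∀ (k N0 Jm : ℕ) (c h : ℕ → ℕ), 0 < N0 → (∀ n, Jm < n → h n = 0) →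
  ∫ t, Fl k N0 c h t ^ 2 =
    (1 / (N0 : ℝ)) ^ k * ∑ n ∈ range (Jm + 1), (bco c k n : ℝ) * (h n : ℝ) ^ 2

/-- (Mg) EASY. `marg F m t = ∫ s, F (update t m s)`; for `t` with `t i ≥ 0` for all `i ≠ m` the
integrand is `if 0 ≤ s then ψ ⌊N0 s⌋ else 0` with
`ψ j = (∏_{i ≠ m} c ⌊N0 t_i⌋) * c j * h (∑_{i ≠ m} ⌊N0 t_i⌋ + j)`, zero for `j ≥ Jm + 1`; apply
`C_One`, then drop the `j` with `∑_{i ≠ m} ⌊N0 t_i⌋ + j > Jm` (they give 0) to get `Hn`. If some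
`t i < 0`, `i ≠ m`, the integrand is 0. -/
def C_Mg : Prop := ∀ (k N0 Jm : ℕ) (c h : ℕ → ℕ), 0 < N0 → (∀ n, Jm < n → h n = 0) →
  ∀ (m : Fin k) (t : Fin k → ℝ), marg (Fl k N0 c h) m t =
    if ∀ i, i ≠ m → 0 ≤ t i then
      (1 / (N0 : ℝ)) * (∏ i ∈ univ.erase m, (c ⌊(N0 : ℝ) * t i⌋₊ : ℝ)) *
        (Hn Jm c h (∑ i ∈ univ.erase m, ⌊(N0 : ℝ) * t i⌋₊) : ℝ)
    else 0

/-- (JmL) MEDIUM. Let `N = Jm + 1`, `G t = ∑ J ∈ piFinset (range N) with J m = 0, v J * bx (lo J) (hi J) t`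
with `lo J i = J i / N0`, `hi J i = (J i + 1)/N0` for `i ≠ m`, `lo J m = 0`, `hi J m = 1`, and
`v J = ((1/N0) * (∏_{i ≠ m} c (J i)) * Hn (∑_{i ≠ m} J i)) ^ 2 ≥ 0`. By `C_Mg`, for `0 ≤ t m < 1`:
`marg F m t ^ 2 = G t` (note `Hn n = 0` for `n > Jm`, so only `J i ≤ Jm` matter), and `G t = 0` if
not `0 ≤ t m < 1`. So `Jm (Pl T) F m = ∫ rho (∑_{j ≠ m} t j) * G t`, where
`rho s = if s ≤ 2 - T then 1 else 0` (`L = 0`), measurable, between 0 and 1; so the integrand is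
integrable (`G` is, by `C_Box`; `Integrable.bdd_mul` or `Integrable.mono'`). With
`T = (Jm + k)/N0` and `nJ = 2 N0 - 2 k + 1 - Jm` the integrand is at least
`∑ J ∈ piFinset (range N) with J m = 0 and ∑ J ≤ nJ, v J * bx .. t`: on such a box
`∑_{j ≠ m} t j < (∑ J + (k-1))/N0 ≤ 2 - T`. Integrate with `C_Box`: each box has volume
`(1/N0)^(k-1)`; then `C_Cmb` with `f i = fun j => c j ^ 2` for `i ≠ m`,
`f m = fun j => if j = 0 then 1 else 0` (`PowerSeries.mk (f m) = 1`, so the product over `i` of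
the series is the `(k-1)`-th power) and
`φ n = if n ≤ nJ then Hn n ^ 2 else 0` (zero for `n ≥ Jm + 1`). -/
def C_JmL : Prop := ∀ (k N0 Jm : ℕ) (c h : ℕ → ℕ), 2 ≤ k → (∀ n, Jm < n → h n = 0) →
  N0 < Jm + k → Jm + 2 * k ≤ 2 * N0 → ∀ m : Fin k,
  (1 / (N0 : ℝ)) ^ (k + 1) *
      ∑ n ∈ range (2 * N0 - 2 * k + 2 - Jm), (bco c (k - 1) n : ℝ) * (Hn Jm c h n : ℝ) ^ 2 ≤
    BG.Jm (Pl (((Jm : ℝ) + k) / N0)) (Fl k N0 c h) m

/-- (Sh) EASY. Shift of the last factor: `coeff s (A ^ k) = ∑ (n,j) ∈ antidiagonal s, coeff n (A^(k-1)) * c j ^ 2`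
(`pow_succ`, `PowerSeries.coeff_mul`), so both sides are
`∑ n, ∑ j with n + j ≤ Jm of bco c (k-1) n * c j ^ 2 * h (n+j) ^ 2`. -/
def C_Sh : Prop := ∀ (k Jm : ℕ) (c h : ℕ → ℕ), 1 ≤ k →
  ∑ n ∈ range (Jm + 1), bco c k n * h n ^ 2 =
    ∑ n ∈ range (Jm + 1), bco c (k - 1) n * Qn Jm c h n

end MPb51559.TP
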