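import Pool.Agent.Work.MP_b51559_nt.TP.LAT.Stmts

set_option autoImplicit false

/-!
# Block TP, part LAT, item Tst: the lattice function is a test function
-/

namespace MPb51559.TP

open Finset Filter Topology MeasureTheory
open MPb51559.BG
open scoped Classical

/-- the lattice function as a function of the lattice points -/
noncomputable def Tst_G (k : ℕ) (c h : ℕ → ℕ) (J : Fin k → ℕ) : ℝ :=
  (∏ i, (c (J i) : ℝ)) * (h (∑ i, J i) : ℝ)

theorem Tst_Fl (k N0 : ℕ) (c h : ℕ → ℕ) (t : Fin k → ℝ) :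
    Fl k N0 c h t =
      if ∀ i, 0 ≤ t i then Tst_G k c h (fun i => ⌊(N0 : ℝ) * t i⌋₊) else 0 := rfl

theorem Tst_G_zero {k Jm : ℕ} (c : ℕ → ℕ) {h : ℕ → ℕ} (hh : ∀ n, Jm < n → h n = 0)
    {J : Fin k → ℕ} (hJ : Jm < ∑ i, J i) : Tst_G k c h J = 0 := by
  unfold Tst_G
  rw [hh _ hJ]
  simp

theorem Tst_G_bd {k Jm : ℕ} (c : ℕ → ℕ) {h : ℕ → ℕ} (hh : ∀ n, Jm < n → h n = 0)
    (J : Fin k → ℕ) : |Tst_G k c h J| ≤
      ((∑ j ∈ range (Jm + 1), c j : ℕ) : ℝ) ^ k * ((∑ j ∈ range (Jm + 1), h j : ℕ) : ℝ) := by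
  by_cases hJ : Jm < ∑ i, J i
  · rw [Tst_G_zero c hh hJ, abs_zero]
    positivity
  · push Not at hJ
    have hi : ∀ i, J i ≤ Jm := fun i =>
      (Finset.single_le_sum (f := J) (fun _ _ => Nat.zero_le _) (mem_univ i)).trans hJ
    have hc : ∀ i, (c (J i) : ℝ) ≤ ((∑ j ∈ range (Jm + 1), c j : ℕ) : ℝ) := fun i =>
      Nat.cast_le.2 (Finset.single_le_sum (f := c) (fun _ _ => Nat.zero_le _)
        (mem_range.2 (Nat.lt_succ_of_le (hi i))))
    have hH : (h (∑ i, J i) : ℝ) ≤ ((∑ j ∈ range (Jm + 1), h j : ℕ) : ℝ) :=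
      Nat.cast_le.2 (Finset.single_le_sum (f := h) (fun _ _ => Nat.zero_le _)
        (mem_range.2 (Nat.lt_succ_of_le hJ)))
    have h0 : 0 ≤ Tst_G k c h J := by unfold Tst_G; positivity
    rw [abs_of_nonneg h0]
    unfold Tst_G
    refine mul_le_mul ?_ hH (by positivity) (by positivity)
    calc ∏ i, (c (J i) : ℝ) ≤ ∏ _i : Fin k, ((∑ j ∈ range (Jm + 1), c j : ℕ) : ℝ) :=
          Finset.prod_le_prod (fun _ _ => by positivity) fun i _ => hc i
      _ = _ := by rw [Finset.prod_const, Finset.card_univ, Fintype.card_fin]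

theorem Tst_meas (k N0 : ℕ) (c h : ℕ → ℕ) : Measurable (Fl k N0 c h) := by
  have h1 : Measurable fun t : Fin k → ℝ => fun i => ⌊(N0 : ℝ) * t i⌋₊ :=
    measurable_pi_lambda _ fun i =>
      Nat.measurable_floor.comp (measurable_const.mul (measurable_pi_apply i))
  have h2 : Measurable fun t : Fin k → ℝ => Tst_G k c h (fun i => ⌊(N0 : ℝ) * t i⌋₊) :=
    (measurable_of_countable (Tst_G k c h)).comp h1
  have h3 : MeasurableSet {t : Fin k → ℝ | ∀ i, 0 ≤ t i} := by
    have : {t : Fin k → ℝ | ∀ i, 0 ≤ t i} = ⋂ i, {t : Fin k → ℝ | 0 ≤ t i} := by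
      ext t
      simp
    rw [this]
    exact MeasurableSet.iInter fun i => measurableSet_le measurable_const (measurable_pi_apply i)
  exact Measurable.ite h3 h2 measurable_const

/-- Item Tst. -/
theorem prf_Tst (hBv : C_Bv) : C_Tst := by
  intro k N0 Jm c h hN hh
  set M : ℝ := ((∑ j ∈ range (Jm + 1), c j : ℕ) : ℝ) ^ k *
    ((∑ j ∈ range (Jm + 1), h j : ℕ) : ℝ) with hM
  have hM0 : 0 ≤ M := by positivity
  have hN' : (0 : ℝ) < N0 := Nat.cast_pos.2 hN
  refine ⟨Tst_meas k N0 c h, ?_, ⟨M, fun t => ?_⟩, ?_⟩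
  · intro t ht
    rw [Tst_Fl] at ht
    by_cases h0 : ∀ i, 0 ≤ t i
    · rw [if_pos h0] at ht
      refine ⟨h0, ?_⟩
      have hJ : ∑ i, ⌊(N0 : ℝ) * t i⌋₊ ≤ Jm := by
        by_contra hcon
        exact ht (Tst_G_zero c hh (not_le.1 hcon))
      rw [le_div_iff₀ hN', mul_comm, Finset.mul_sum]
      calc ∑ i, (N0 : ℝ) * t i ≤ ∑ i, ((⌊(N0 : ℝ) * t i⌋₊ : ℝ) + 1) :=
            Finset.sum_le_sum fun i _ => (Nat.lt_floor_add_one _).le
        _ = ((∑ i, ⌊(N0 : ℝ) * t i⌋₊ : ℕ) : ℝ) + k := by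
            rw [Finset.sum_add_distrib]
            push_cast
            simp
        _ ≤ (Jm : ℝ) + k := by
            have : ((∑ i, ⌊(N0 : ℝ) * t i⌋₊ : ℕ) : ℝ) ≤ Jm := Nat.cast_le.2 hJ
            linarith
    · rw [if_neg h0] at ht
      exact absurd rfl ht
  · rw [Tst_Fl]
    by_cases h0 : ∀ i, 0 ≤ t i
    · rw [if_pos h0]
      exact Tst_G_bd c hh _
    · rw [if_neg h0, abs_zero]
      exact hM0
  · refine ⟨Real.toNNReal (2 * (Jm + 1 : ℕ) * M), fun t i => ?_⟩
    let ψ : ℕ → ℝ := fun j => if ∀ l, l ≠ i → 0 ≤ t l then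
      Tst_G k c h (Function.update (fun l => ⌊(N0 : ℝ) * t l⌋₊) i j) else 0
    have hψ : ∀ j, ψ j = if ∀ l, l ≠ i → 0 ≤ t l then
      Tst_G k c h (Function.update (fun l => ⌊(N0 : ℝ) * t l⌋₊) i j) else 0 := fun _ => rfl
    have hb : ∀ j, |ψ j| ≤ M := by
      intro j
      rw [hψ]
      by_cases h0 : ∀ l, l ≠ i → 0 ≤ t l
      · rw [if_pos h0]
        exact Tst_G_bd c hh _
      · rw [if_neg h0, abs_zero]
        exact hM0
    have hz : ∀ j, Jm + 1 ≤ j → ψ j = 0 := by
      intro j hj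
      rw [hψ]
      by_cases h0 : ∀ l, l ≠ i → 0 ≤ t l
      · rw [if_pos h0]
        refine Tst_G_zero c hh (lt_of_lt_of_le (Nat.lt_of_succ_le hj) ?_)
        have := Finset.single_le_sum
          (f := Function.update (fun l => ⌊(N0 : ℝ) * t l⌋₊) i j)
          (fun _ _ => Nat.zero_le _) (mem_univ i)
        rwa [Function.update_self] at this
      · rw [if_neg h0]
    refine le_trans (le_of_eq (congrArg (fun f => eVariationOn f Set.univ) ?_))
      (hBv N0 (Jm + 1) M ψ hN hM0 hb hz)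
    funext s
    rw [Tst_Fl]
    by_cases hs : 0 ≤ s
    · rw [if_pos hs, hψ]
      have h1 : (fun l => ⌊(N0 : ℝ) * Function.update t i s l⌋₊) =
          Function.update (fun l => ⌊(N0 : ℝ) * t l⌋₊) i ⌊(N0 : ℝ) * s⌋₊ := by
        funext l
        by_cases hl : l = i
        · subst hl
          rw [Function.update_self, Function.update_self]
        · rw [Function.update_of_ne hl, Function.update_of_ne hl]
      rw [h1]
      by_cases h0 : ∀ l, l ≠ i → 0 ≤ t l
      · rw [if_pos h0, if_pos]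
        intro l
        by_cases hl : l = i
        · subst hl
          rwa [Function.update_self]
        · rw [Function.update_of_ne hl]
          exact h0 l hl
      · rw [if_neg h0, if_neg]
        intro hcon
        refine h0 fun l hl => ?_
        have := hcon l
        rwa [Function.update_of_ne hl] at this
    · rw [if_neg hs, if_neg]
      intro hcon
      have := hcon i
      rw [Function.update_self] at this
      exact hs this

end MPb51559.TP
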